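import Pool.Agent.H57.Yor5

set_option autoImplicit false

namespace Pool.Agent.Results.MP_9fd5aa_lc.QTwo

open Pool.Agent.H57.Yor

theorem result :
    (minadd = add (Yorioka id) ↔ ∀ f : ℕ → ℕ, StrictMono f → add (Yorioka f) = add Null) ∧
    (supcof = cof (Yorioka id) ↔ ∀ f : ℕ → ℕ, StrictMono f → cof (Yorioka f) = cof Null) := q2

end Pool.Agent.Results.MP_9fd5aa_lc.QTwo
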